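import Mathlib

/-!
# One class per prime: all but few intervals (core inequalities)
-/

set_option autoImplicit false

namespace Pool.Agent.U585.CV

open Finset

/-- the number of the primes `p` in `Q` with `n ≡ a p` modulo `p` -/
noncomputable def mult (Q : Finset ℕ) (a : ℕ → ℤ) (n : ℤ) : ℕ := (Q.filter (fun p : ℕ => (p : ℤ) ∣ n - a p)).card

/-- the number of the integers `n` with `M < n ≤ M + N` and `n ≡ a p` modulo `p` for some `p` in `Q` -/
noncomputable def cov (Q : Finset ℕ) (a : ℕ → ℤ) (M : ℤ) (N : ℕ) : ℕ :=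
  ((Ioc M (M + N)).filter (fun n : ℤ => ∃ p ∈ Q, (p : ℤ) ∣ n - a p)).card

lemma spread (A : Finset ℤ) (T : ℤ) (L D : ℕ) (hD : 0 < D) (hA : A ⊆ Ioc T (T + L))
    (h : ∀ x ∈ A, ∀ y ∈ A, (D : ℤ) ∣ x - y) : A.card ≤ L / D + 1 := by
  have h1 : A.card ≤ (range (L / D + 1)).card := by
    refine Finset.card_le_card_of_injOn (fun x => ((x - T - 1) / D).toNat) ?_ ?_
    · intro x hx
      have h2 := mem_Ioc.1 (hA hx)
      simp only [coe_range, Set.mem_Iio]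
      have h3 : (x - T - 1) / (D : ℤ) ≤ (L : ℤ) / D := Int.ediv_le_ediv (by exact_mod_cast hD) (by linarith [h2.2])
      have h4 : (L : ℤ) / D = ((L / D : ℕ) : ℤ) := by push_cast; rfl
      rw [h4] at h3
      have h5 : (0 : ℤ) ≤ ((L / D : ℕ) : ℤ) := Int.natCast_nonneg _
      generalize (x - T - 1) / (D : ℤ) = z at h3 ⊢
      generalize L / D = w at h3 h5 ⊢
      omega
    · intro x hx y hy hxy
      have h2 := mem_Ioc.1 (hA hx)
      have h3 := mem_Ioc.1 (hA hy)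
      simp only at hxy
      have hDz : (0 : ℤ) < D := by exact_mod_cast hD
      have h4 : 0 ≤ (x - T - 1) / (D : ℤ) := Int.ediv_nonneg (by linarith [h2.1]) hDz.le
      have h5 : 0 ≤ (y - T - 1) / (D : ℤ) := Int.ediv_nonneg (by linarith [h3.1]) hDz.le
      have h6 : (x - T - 1) / (D : ℤ) = (y - T - 1) / (D : ℤ) := by omega
      obtain ⟨c, hc⟩ := h x hx y hy
      have h7 := Int.emod_add_mul_ediv (x - T - 1) D
      have h8 := Int.emod_add_mul_ediv (y - T - 1) D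
      have h9 := Int.emod_nonneg (x - T - 1) hDz.ne'
      have h10 := Int.emod_lt_of_pos (x - T - 1) hDz
      have h11 := Int.emod_nonneg (y - T - 1) hDz.ne'
      have h12 := Int.emod_lt_of_pos (y - T - 1) hDz
      rw [h6] at h7
      have h13 : (D : ℤ) * c < D * 1 := by rw [← hc]; linarith
      have h14 : (D : ℤ) * (-1) < D * c := by rw [← hc]; linarith
      have h15 := lt_of_mul_lt_mul_left h13 hDz.le
      have h16 := lt_of_mul_lt_mul_left h14 hDz.le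
      have h17 : c = 0 := by omega
      rw [h17, mul_zero] at hc
      linarith
  rwa [card_range] at h1

lemma common (s : Finset ℕ) (a : ℕ → ℤ) (Y : ℝ) (hY : 0 < Y) (hs : ∀ p ∈ s, p.Prime ∧ Y ≤ p) (T : ℤ) (L : ℕ) :
    (((Ioc T (T + L)).filter (fun n : ℤ => ∀ p ∈ s, (p : ℤ) ∣ n - a p)).card : ℝ) ≤ L / Y ^ s.card + 1 := by
  set D : ℕ := ∏ p ∈ s, p with hD
  have hD0 : 0 < D := Finset.prod_pos fun p hp => (hs p hp).1.pos
  have h1 := spread ((Ioc T (T + L)).filter (fun n : ℤ => ∀ p ∈ s, (p : ℤ) ∣ n - a p)) T L D hD0 (filter_subset _ _)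
    (by
      intro x hx y hy
      have hx2 := (mem_filter.1 hx).2
      have hy2 := (mem_filter.1 hy).2
      rw [hD]
      push_cast
      refine Finset.prod_dvd_of_coprime ?_ ?_
      · intro p hp q hq hpq
        exact Nat.isCoprime_iff_coprime.2 ((Nat.coprime_primes (hs p hp).1 (hs q hq).1).2 hpq)
      · intro p hp
        have h3 := dvd_sub (hx2 p hp) (hy2 p hp)
        have e : x - a p - (y - a p) = x - y := by ring
        rwa [e] at h3)
  have h2 : (((Ioc T (T + L)).filter (fun n : ℤ => ∀ p ∈ s, (p : ℤ) ∣ n - a p)).card : ℝ) ≤ ((L / D : ℕ) : ℝ) + 1 := by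
    exact_mod_cast h1
  refine h2.trans ?_
  have h3 : ((L / D : ℕ) : ℝ) ≤ (L : ℝ) / D := Nat.cast_div_le
  have h4 : Y ^ s.card ≤ (D : ℝ) := by
    rw [hD]
    push_cast
    rw [← Finset.prod_const]
    exact Finset.prod_le_prod (fun _ _ => hY.le) fun p hp => (hs p hp).2
  have h5 : (L : ℝ) / D ≤ L / Y ^ s.card := div_le_div_of_nonneg_left (Nat.cast_nonneg _) (by positivity) h4
  linarith

lemma choose_sum (Q : Finset ℕ) (a : ℕ → ℤ) (k : ℕ) (J : Finset ℤ) :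
    ∑ n ∈ J, (mult Q a n).choose k =
      ∑ s ∈ powersetCard k Q, (J.filter (fun n : ℤ => ∀ p ∈ s, (p : ℤ) ∣ n - a p)).card := by
  have h1 : ∀ n ∈ J, (mult Q a n).choose k =
      ((powersetCard k Q).filter (fun s : Finset ℕ => ∀ p ∈ s, (p : ℤ) ∣ n - a p)).card := by
    intro n _
    unfold mult
    rw [← card_powersetCard]
    congr 1
    ext s
    simp only [mem_powersetCard, mem_filter, subset_iff]
    constructor
    · rintro ⟨h1, h2⟩
      exact ⟨⟨fun p hp => (h1 hp).1, h2⟩, fun p hp => (h1 hp).2⟩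
    · rintro ⟨⟨h1, h2⟩, h3⟩
      exact ⟨fun p hp => ⟨h1 hp, h3 p hp⟩, h2⟩
  rw [sum_congr rfl h1]
  exact Finset.sum_card_bipartiteAbove_eq_sum_card_bipartiteBelow (fun (n : ℤ) (s : Finset ℕ) => ∀ p ∈ s, (p : ℤ) ∣ n - a p)

lemma choose_bound (Q : Finset ℕ) (a : ℕ → ℤ) (Y : ℝ) (hY : 0 < Y) (hQ : ∀ p ∈ Q, p.Prime ∧ Y ≤ p) (k : ℕ) (T : ℤ) (L : ℕ) :
    ∑ n ∈ Ioc T (T + L), ((mult Q a n).choose k : ℝ) ≤ (Q.card : ℝ) ^ k / k.factorial * (L / Y ^ k + 1) := by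
  have h1 := choose_sum Q a k (Ioc T (T + L))
  have h2 : ∑ n ∈ Ioc T (T + L), ((mult Q a n).choose k : ℝ) =
      ∑ s ∈ powersetCard k Q, (((Ioc T (T + L)).filter (fun n : ℤ => ∀ p ∈ s, (p : ℤ) ∣ n - a p)).card : ℝ) := by
    exact_mod_cast h1
  rw [h2]
  have h3 : ∀ s ∈ powersetCard k Q,
      (((Ioc T (T + L)).filter (fun n : ℤ => ∀ p ∈ s, (p : ℤ) ∣ n - a p)).card : ℝ) ≤ L / Y ^ k + 1 := by
    intro s hs
    have h4 := mem_powersetCard.1 hs
    have h5 := common s a Y hY (fun p hp => hQ p (h4.1 hp)) T L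
    rwa [h4.2] at h5
  refine (sum_le_sum h3).trans ?_
  rw [sum_const, nsmul_eq_mul, card_powersetCard]
  exact mul_le_mul_of_nonneg_right (Nat.choose_le_pow_div _ _) (by positivity)

lemma class_card (M : ℤ) (N p : ℕ) (hp : 0 < p) (v : ℤ) :
    (N : ℝ) / p - 1 ≤ (((Ioc M (M + N)).filter (fun n : ℤ => (p : ℤ) ∣ n - v)).card : ℝ) ∧
    (((Ioc M (M + N)).filter (fun n : ℤ => (p : ℤ) ∣ n - v)).card : ℝ) ≤ (N : ℝ) / p + 1 := by
  have e : (Ioc M (M + N)).filter (fun n : ℤ => (p : ℤ) ∣ n - v) =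
      (Ioc M (M + N)).filter (fun n => n ≡ v [ZMOD (p : ℤ)]) := by
    refine filter_congr fun n _ => ?_
    rw [Int.modEq_comm, Int.modEq_iff_dvd]
  rw [e]
  have hcard := Int.Ioc_filter_modEq_card M (M + N) (r := (p : ℤ)) (by exact_mod_cast hp) v
  have f1 := Int.lt_floor_add_one ((((M + N : ℤ) : ℚ) - v) / ((p : ℤ) : ℚ))
  have f2 := Int.floor_le ((((M : ℤ) : ℚ) - v) / ((p : ℤ) : ℚ))
  have f3 := Int.floor_le ((((M + N : ℤ) : ℚ) - v) / ((p : ℤ) : ℚ))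
  have f4 := Int.lt_floor_add_one ((((M : ℤ) : ℚ) - v) / ((p : ℤ) : ℚ))
  have hpq : (0 : ℚ) < p := by exact_mod_cast hp
  have e2 : (((M + N : ℤ) : ℚ) - v) / ((p : ℤ) : ℚ) - (((M : ℤ) : ℚ) - v) / ((p : ℤ) : ℚ) = (N : ℚ) / p := by
    push_cast
    field_simp
    ring
  have hN : (0 : ℚ) ≤ (N : ℚ) / p := by positivity
  have h5 : ((#((Ioc M (M + N)).filter (fun n => n ≡ v [ZMOD (p : ℤ)])) : ℤ) : ℚ) =
      max ((⌊(((M + N : ℤ) : ℚ) - v) / ((p : ℤ) : ℚ)⌋ : ℚ) - (⌊(((M : ℤ) : ℚ) - v) / ((p : ℤ) : ℚ)⌋ : ℚ)) 0 := by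
    rw [hcard]; push_cast; rfl
  have h6 : (N : ℚ) / p - 1 ≤ (#((Ioc M (M + N)).filter (fun n => n ≡ v [ZMOD (p : ℤ)])) : ℚ) := by
    have h7 : ((#((Ioc M (M + N)).filter (fun n => n ≡ v [ZMOD (p : ℤ)])) : ℤ) : ℚ) =
      (#((Ioc M (M + N)).filter (fun n => n ≡ v [ZMOD (p : ℤ)])) : ℚ) := by push_cast; rfl
    rw [← h7, h5]
    refine le_trans ?_ (le_max_left _ _)
    linarith
  have h8 : (#((Ioc M (M + N)).filter (fun n => n ≡ v [ZMOD (p : ℤ)])) : ℚ) ≤ (N : ℚ) / p + 1 := by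
    have h7 : ((#((Ioc M (M + N)).filter (fun n => n ≡ v [ZMOD (p : ℤ)])) : ℤ) : ℚ) =
      (#((Ioc M (M + N)).filter (fun n => n ≡ v [ZMOD (p : ℤ)])) : ℚ) := by push_cast; rfl
    rw [← h7, h5]
    refine max_le ?_ (by linarith)
    linarith
  constructor
  · have h9 : (((N : ℚ) / p - 1 : ℚ) : ℝ) ≤ ((#((Ioc M (M + N)).filter (fun n => n ≡ v [ZMOD (p : ℤ)])) : ℚ) : ℝ) := by
      exact_mod_cast h6
    push_cast at h9
    exact h9
  · have h9 : ((#((Ioc M (M + N)).filter (fun n => n ≡ v [ZMOD (p : ℤ)])) : ℚ) : ℝ) ≤ (((N : ℚ) / p + 1 : ℚ) : ℝ) := by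
      exact_mod_cast h8
    push_cast at h9
    exact h9

lemma mult_sum (Q : Finset ℕ) (a : ℕ → ℤ) (J : Finset ℤ) :
    ∑ n ∈ J, mult Q a n = ∑ p ∈ Q, (J.filter (fun n : ℤ => (p : ℤ) ∣ n - a p)).card :=
  Finset.sum_card_bipartiteAbove_eq_sum_card_bipartiteBelow (fun (n : ℤ) (p : ℕ) => (p : ℤ) ∣ n - a p)

/-- the incidences in a window -/
lemma inc_low (Q : Finset ℕ) (a : ℕ → ℤ) (Y : ℝ) (hY : 0 < Y) (N : ℕ) (hN : 4 * Y ≤ N)
    (hQ : ∀ p ∈ Q, p.Prime ∧ Y ≤ p ∧ (p : ℝ) < 2 * Y) (M : ℤ) :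
    (Q.card : ℝ) * (N / (4 * Y)) ≤ ∑ n ∈ Ioc M (M + N), (mult Q a n : ℝ) := by
  have h1 := mult_sum Q a (Ioc M (M + N))
  have h2 : ∑ n ∈ Ioc M (M + N), (mult Q a n : ℝ) =
      ∑ p ∈ Q, (((Ioc M (M + N)).filter (fun n : ℤ => (p : ℤ) ∣ n - a p)).card : ℝ) := by exact_mod_cast h1
  rw [h2, ← nsmul_eq_mul, ← sum_const]
  refine sum_le_sum fun p hp => ?_
  refine le_trans ?_ (class_card M N p (hQ p hp).1.pos (a p)).1
  have hp0 : (0 : ℝ) < p := lt_of_lt_of_le hY (hQ p hp).2.1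
  have h3 : (N : ℝ) / (2 * Y) ≤ N / p := div_le_div_of_nonneg_left (Nat.cast_nonneg _) hp0 (hQ p hp).2.2.le
  have h4 : (1 : ℝ) ≤ N / (4 * Y) := by rw [le_div_iff₀ (by positivity)]; linarith
  have h5 : (N : ℝ) / (2 * Y) = 2 * (N / (4 * Y)) := by field_simp; ring
  linarith

/-- pointwise comparison of a power with a binomial coefficient -/
lemma pow_le_choose (f k : ℕ) (hk : 1 ≤ k) :
    (f : ℝ) ^ k ≤ 2 ^ k * k.factorial * f.choose k + (2 * k : ℝ) ^ (k - 1) * f := by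
  rcases lt_or_ge f (2 * k) with h | h
  · have h1 : (f : ℝ) ^ k = (f : ℝ) ^ (k - 1) * f := by
      rw [← pow_succ]; congr 1; omega
    rw [h1]
    have h2 : (f : ℝ) ≤ 2 * k := by exact_mod_cast h.le
    have h3 : (f : ℝ) ^ (k - 1) ≤ (2 * k : ℝ) ^ (k - 1) := pow_le_pow_left₀ (Nat.cast_nonneg _) h2 _
    have h4 : (0 : ℝ) ≤ 2 ^ k * k.factorial * f.choose k := by positivity
    nlinarith [mul_le_mul_of_nonneg_right h3 (Nat.cast_nonneg (α := ℝ) f)]
  · have h1 := Nat.pow_sub_le_descFactorial f k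
    rw [Nat.descFactorial_eq_factorial_mul_choose] at h1
    have h2 : f ≤ 2 * (f + 1 - k) := by omega
    have h3 : f ^ k ≤ 2 ^ k * (f + 1 - k) ^ k := by
      rw [← mul_pow]
      exact Nat.pow_le_pow_left h2 k
    have h4 : f ^ k ≤ 2 ^ k * (k.factorial * f.choose k) := h3.trans (Nat.mul_le_mul_left _ h1)
    have h5 : (f : ℝ) ^ k ≤ 2 ^ k * (k.factorial * f.choose k) := by exact_mod_cast h4
    have h6 : (0 : ℝ) ≤ (2 * k : ℝ) ^ (k - 1) * f := by positivity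
    linarith

/-- each integer lies in at most `N` windows -/
lemma windows_sum (g : ℤ → ℝ) (hg : ∀ n, 0 ≤ g n) (T : ℤ) (X N : ℕ) (A : Finset ℤ) (hA : A ⊆ Ico T (T + X)) :
    ∑ M ∈ A, ∑ n ∈ Ioc M (M + N), g n ≤ N * ∑ n ∈ Ioc T (T + ((X + N : ℕ) : ℤ)), g n := by
  calc ∑ M ∈ A, ∑ n ∈ Ioc M (M + N), g n
      ≤ ∑ M ∈ Ico T (T + X), ∑ n ∈ Ioc M (M + N), g n :=
        sum_le_sum_of_subset_of_nonneg hA fun _ _ _ => sum_nonneg fun _ _ => hg _
    _ ≤ ∑ M ∈ Ico T (T + X), ∑ n ∈ Ioc T (T + ((X + N : ℕ) : ℤ)), if M < n ∧ n ≤ M + N then g n else 0 := by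
        refine sum_le_sum fun M hM => ?_
        rw [← sum_filter]
        refine sum_le_sum_of_subset_of_nonneg ?_ fun _ _ _ => hg _
        intro n hn
        have h1 := mem_Ico.1 hM
        have h2 := mem_Ioc.1 hn
        rw [mem_filter, mem_Ioc]
        push_cast
        exact ⟨⟨by linarith [h1.1, h2.1], by linarith [h1.2, h2.2]⟩, h2⟩
    _ = ∑ n ∈ Ioc T (T + ((X + N : ℕ) : ℤ)), ∑ M ∈ Ico T (T + X), if M < n ∧ n ≤ M + N then g n else 0 := sum_comm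
    _ ≤ ∑ n ∈ Ioc T (T + ((X + N : ℕ) : ℤ)), N * g n := by
        refine sum_le_sum fun n _ => ?_
        rw [← sum_filter, sum_const, nsmul_eq_mul]
        refine mul_le_mul_of_nonneg_right ?_ (hg n)
        have h3 : ((Ico T (T + X)).filter (fun M => M < n ∧ n ≤ M + N)).card ≤ (Ico (n - N) n).card := by
          refine card_le_card fun M hM => ?_
          have h4 := (mem_filter.1 hM).2
          rw [mem_Ico]
          exact ⟨by linarith [h4.2], h4.1⟩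
        rw [Int.card_Ico] at h3
        have h5 : (n - (n - (N : ℤ))).toNat = N := by
          have : n - (n - (N : ℤ)) = N := by ring
          rw [this]; exact Int.toNat_natCast N
        rw [h5] at h3
        exact_mod_cast h3
    _ = N * ∑ n ∈ Ioc T (T + ((X + N : ℕ) : ℤ)), g n := by rw [mul_sum]

end Pool.Agent.U585.CV
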