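import Pool.Agent.U585.CV.Core

/-!
# One class per prime: all but few intervals (main inequality)
-/

set_option autoImplicit false

namespace Pool.Agent.U585.CV

open Finset

/-- the integers of the window which are covered -/
noncomputable def cset (Q : Finset ℕ) (a : ℕ → ℤ) (M : ℤ) (N : ℕ) : Finset ℤ :=
  (Ioc M (M + N)).filter (fun n : ℤ => ∃ p ∈ Q, (p : ℤ) ∣ n - a p)

lemma cov_eq (Q : Finset ℕ) (a : ℕ → ℤ) (M : ℤ) (N : ℕ) : cov Q a M N = (cset Q a M N).card := rfl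

lemma mult_zero {Q : Finset ℕ} {a : ℕ → ℤ} {n : ℤ} (h : ¬ ∃ p ∈ Q, (p : ℤ) ∣ n - a p) : mult Q a n = 0 := by
  unfold mult
  rw [card_eq_zero, filter_eq_empty_iff]
  intro p hp h2
  exact h ⟨p, hp, h2⟩

lemma mult_pos {Q : Finset ℕ} {a : ℕ → ℤ} {n : ℤ} (h : ∃ p ∈ Q, (p : ℤ) ∣ n - a p) : 1 ≤ mult Q a n := by
  obtain ⟨p, hp, h2⟩ := h
  exact card_pos.2 ⟨p, mem_filter.2 ⟨hp, h2⟩⟩

lemma sum_cset (Q : Finset ℕ) (a : ℕ → ℤ) (M : ℤ) (N : ℕ) :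
    ∑ n ∈ cset Q a M N, (mult Q a n : ℝ) = ∑ n ∈ Ioc M (M + N), (mult Q a n : ℝ) := by
  refine sum_subset (filter_subset _ _) fun n hn hn2 => ?_
  have : ¬ ∃ p ∈ Q, (p : ℤ) ∣ n - a p := fun h => hn2 (mem_filter.2 ⟨hn, h⟩)
  rw [mult_zero this, Nat.cast_zero]

theorem one_window (Q : Finset ℕ) (a : ℕ → ℤ) (M : ℤ) (N k : ℕ) (hk : 2 ≤ k) (V S₀ : ℝ) (hV : 0 < V)
    (hS0 : 4 * k * V ≤ S₀) (hS : S₀ ≤ ∑ n ∈ Ioc M (M + N), (mult Q a n : ℝ)) (hc : (cov Q a M N : ℝ) ≤ V) :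
    S₀ ^ k ≤ 2 ^ (k + 1) * k.factorial * V ^ (k - 1) * ∑ n ∈ Ioc M (M + N), ((mult Q a n).choose k : ℝ) := by
  obtain ⟨j, rfl⟩ : ∃ j, k = j + 1 := ⟨k - 1, by omega⟩
  have hj : 1 ≤ j := by omega
  rw [Nat.add_sub_cancel]
  set S : ℝ := ∑ n ∈ Ioc M (M + N), (mult Q a n : ℝ) with hSd
  set U := cset Q a M N with hU
  set B : ℝ := ∑ n ∈ Ioc M (M + N), ((mult Q a n).choose (j + 1) : ℝ) with hB
  have hkV : 0 < 4 * ((j + 1 : ℕ) : ℝ) * V := by positivity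
  have hS0p : 0 < S₀ := lt_of_lt_of_le hkV hS0
  have hSp : 0 < S := lt_of_lt_of_le hS0p hS
  have hUS : ∑ n ∈ U, (mult Q a n : ℝ) = S := sum_cset Q a M N
  have hUc : (0 : ℝ) < U.card := by
    rcases Nat.eq_zero_or_pos U.card with h | h
    · rw [card_eq_zero.1 h, sum_empty] at hUS
      exact absurd hUS hSp.ne
    · exact_mod_cast h
  have hUV : (U.card : ℝ) ≤ V := hc
  have h1 : (∑ n ∈ U, (mult Q a n : ℝ)) ^ (j + 1) / (U.card : ℝ) ^ j ≤ ∑ n ∈ U, (mult Q a n : ℝ) ^ (j + 1) :=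
    pow_sum_div_card_le_sum_pow (fun _ _ => Nat.cast_nonneg _) j
  rw [hUS, div_le_iff₀ (by positivity)] at h1
  have h2 : ∑ n ∈ U, (mult Q a n : ℝ) ^ (j + 1) ≤ 2 ^ (j + 1) * (j + 1).factorial * B + (2 * ((j + 1 : ℕ) : ℝ)) ^ j * S := by
    have h3 : ∑ n ∈ U, (mult Q a n : ℝ) ^ (j + 1) ≤
        ∑ n ∈ U, (2 ^ (j + 1) * (j + 1).factorial * ((mult Q a n).choose (j + 1) : ℝ) + (2 * ((j + 1 : ℕ) : ℝ)) ^ j * (mult Q a n : ℝ)) := by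
      refine sum_le_sum fun n _ => ?_
      have := pow_le_choose (mult Q a n) (j + 1) (by omega)
      rwa [Nat.add_sub_cancel] at this
    refine h3.trans ?_
    rw [sum_add_distrib, ← mul_sum, ← mul_sum, hUS]
    have h4 : ∑ n ∈ U, ((mult Q a n).choose (j + 1) : ℝ) ≤ B :=
      sum_le_sum_of_subset_of_nonneg (filter_subset _ _) fun _ _ _ => Nat.cast_nonneg _
    have h5 : (0 : ℝ) ≤ 2 ^ (j + 1) * (j + 1).factorial := by positivity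
    nlinarith [mul_le_mul_of_nonneg_left h4 h5]
  have h2' : (0 : ℝ) ≤ ∑ n ∈ U, (mult Q a n : ℝ) ^ (j + 1) := sum_nonneg fun _ _ => by positivity
  have h6 : S ^ (j + 1) ≤ V ^ j * (2 ^ (j + 1) * (j + 1).factorial * B + (2 * ((j + 1 : ℕ) : ℝ)) ^ j * S) := by
    calc S ^ (j + 1) ≤ (∑ n ∈ U, (mult Q a n : ℝ) ^ (j + 1)) * (U.card : ℝ) ^ j := h1
      _ ≤ (∑ n ∈ U, (mult Q a n : ℝ) ^ (j + 1)) * V ^ j :=
        mul_le_mul_of_nonneg_left (pow_le_pow_left₀ hUc.le hUV _) h2'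
      _ = V ^ j * ∑ n ∈ U, (mult Q a n : ℝ) ^ (j + 1) := mul_comm _ _
      _ ≤ _ := mul_le_mul_of_nonneg_left h2 (by positivity)
  have h7 : V ^ j * ((2 * ((j + 1 : ℕ) : ℝ)) ^ j * S) ≤ S ^ (j + 1) / 2 := by
    have h8 : 2 * ((j + 1 : ℕ) : ℝ) * V ≤ S / 2 := by linarith
    have h9 : (2 * ((j + 1 : ℕ) : ℝ) * V) ^ j ≤ (S / 2) ^ j := pow_le_pow_left₀ (by positivity) h8 _
    have h10 : (S / 2) ^ j ≤ S ^ j / 2 := by
      rw [div_pow]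
      refine div_le_div_of_nonneg_left (by positivity) (by norm_num) ?_
      calc (2 : ℝ) = 2 ^ 1 := by norm_num
        _ ≤ 2 ^ j := pow_le_pow_right₀ (by norm_num) hj
    calc V ^ j * ((2 * ((j + 1 : ℕ) : ℝ)) ^ j * S) = (2 * ((j + 1 : ℕ) : ℝ) * V) ^ j * S := by rw [mul_pow]; ring
      _ ≤ (S ^ j / 2) * S := mul_le_mul_of_nonneg_right (h9.trans h10) hSp.le
      _ = S ^ (j + 1) / 2 := by rw [pow_succ]; ring
  have h11 : S ^ (j + 1) ≤ 2 ^ (j + 1 + 1) * (j + 1).factorial * V ^ j * B := by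
    rw [mul_add] at h6
    rw [pow_succ 2 (j + 1)]
    nlinarith [h6, h7]
  exact (pow_le_pow_left₀ hS0p.le hS _).trans h11

theorem main (Q : Finset ℕ) (a : ℕ → ℤ) (Y : ℝ) (hY : 0 < Y) (N : ℕ) (hN : 4 * Y ≤ N)
    (hQ : ∀ p ∈ Q, p.Prime ∧ Y ≤ p ∧ (p : ℝ) < 2 * Y) (k : ℕ) (hk : 2 ≤ k) (T : ℤ) (X : ℕ) (V : ℝ) (hV : 0 < V)
    (hVk : 16 * k * V ≤ Q.card * (N / Y)) :
    (((Ico T (T + X)).filter (fun M : ℤ => (cov Q a M N : ℝ) ≤ V)).card : ℝ) ≤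
      2 * 8 ^ k * (V / N) ^ (k - 1) * (X + N + Y ^ k) := by
  classical
  set A := (Ico T (T + X)).filter (fun M : ℤ => (cov Q a M N : ℝ) ≤ V) with hA
  have hN0 : (0 : ℝ) < N := by linarith
  set S₀ : ℝ := (Q.card : ℝ) * (N / (4 * Y)) with hS0
  have e1 : S₀ = Q.card * (N / Y) / 4 := by rw [hS0]; field_simp
  have h4 : 4 * k * V ≤ S₀ := by rw [e1]; linarith
  have hk0 : (0 : ℝ) < k := by exact_mod_cast (by omega : 0 < k)
  have hS0p : 0 < S₀ := lt_of_lt_of_le (by positivity) h4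
  have hQc : (0 : ℝ) < Q.card := by
    rcases (Nat.cast_nonneg (α := ℝ) Q.card).lt_or_eq with h | h
    · exact h
    · rw [hS0, ← h, zero_mul] at hS0p; exact absurd hS0p (lt_irrefl _)
  have h5 : ∀ M ∈ A, S₀ ^ k ≤ 2 ^ (k + 1) * k.factorial * V ^ (k - 1) * ∑ n ∈ Ioc M (M + N), ((mult Q a n).choose k : ℝ) :=
    fun M hM => one_window Q a M N k hk V S₀ hV h4 (inc_low Q a Y hY N hN hQ M) (mem_filter.1 hM).2
  have h6 : (A.card : ℝ) * S₀ ^ k ≤ 2 ^ (k + 1) * k.factorial * V ^ (k - 1) *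
      (N * ((Q.card : ℝ) ^ k / k.factorial * ((X + N : ℕ) / Y ^ k + 1))) := by
    calc (A.card : ℝ) * S₀ ^ k = ∑ M ∈ A, S₀ ^ k := by rw [sum_const, nsmul_eq_mul]
      _ ≤ ∑ M ∈ A, 2 ^ (k + 1) * k.factorial * V ^ (k - 1) * ∑ n ∈ Ioc M (M + N), ((mult Q a n).choose k : ℝ) := sum_le_sum h5
      _ = 2 ^ (k + 1) * k.factorial * V ^ (k - 1) * ∑ M ∈ A, ∑ n ∈ Ioc M (M + N), ((mult Q a n).choose k : ℝ) := by rw [mul_sum]
      _ ≤ _ := by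
        refine mul_le_mul_of_nonneg_left ?_ (by positivity)
        refine (windows_sum (fun n => ((mult Q a n).choose k : ℝ)) (fun _ => Nat.cast_nonneg _) T X N A (filter_subset _ _)).trans ?_
        exact mul_le_mul_of_nonneg_left (choose_bound Q a Y hY (fun p hp => ⟨(hQ p hp).1, (hQ p hp).2.1⟩) k T (X + N)) hN0.le
  have h7 : (A.card : ℝ) ≤ 2 ^ (k + 1) * k.factorial * V ^ (k - 1) *
      (N * ((Q.card : ℝ) ^ k / k.factorial * ((X + N : ℕ) / Y ^ k + 1))) / S₀ ^ k := by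
    rwa [le_div_iff₀ (by positivity)]
  refine h7.trans (le_of_eq ?_)
  obtain ⟨j, rfl⟩ : ∃ j, k = j + 1 := ⟨k - 1, by omega⟩
  rw [Nat.add_sub_cancel, hS0, mul_pow, div_pow, mul_pow, div_pow]
  have hf : ((j + 1).factorial : ℝ) ≠ 0 := by positivity
  have e2 : (8 : ℝ) ^ (j + 1) = 2 ^ (j + 1) * 4 ^ (j + 1) := by rw [← mul_pow]; norm_num
  rw [e2]
  push_cast
  field_simp
  ring

end Pool.Agent.U585.CV
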