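import Pool.Agent.U585.CV.Main

/-!
# One class per prime: multiplicities and asymptotics in almost all intervals
-/

set_option autoImplicit false

namespace Pool.Agent.U585.CV

open Finset

lemma card_Q (Q : Finset ℕ) (Y : ℝ) (hY : 1 ≤ Y) (hQ : ∀ p ∈ Q, (p : ℝ) < 2 * Y) : (Q.card : ℝ) ≤ 3 * Y := by
  have h1 : Q ⊆ range ⌈2 * Y⌉₊ := fun p hp => mem_range.2 (Nat.lt_ceil.2 (hQ p hp))
  have h2 := card_le_card h1
  rw [card_range] at h2
  have h3 : (⌈2 * Y⌉₊ : ℝ) < 2 * Y + 1 := Nat.ceil_lt_add_one (by linarith)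
  have h4 : (Q.card : ℝ) ≤ ⌈2 * Y⌉₊ := by exact_mod_cast h2
  linarith

/-- the windows which contain an integer of large multiplicity -/
theorem mult_bad (Q : Finset ℕ) (a : ℕ → ℤ) (Y : ℝ) (hY : 1 ≤ Y) (N : ℕ)
    (hQ : ∀ p ∈ Q, p.Prime ∧ Y ≤ p ∧ (p : ℝ) < 2 * Y) (k : ℕ) (T : ℤ) (X : ℕ) (W : ℝ) (hW : 2 * k ≤ W)
    (hW0 : 0 < W) :
    (((Ico T (T + X)).filter (fun M : ℤ => ∃ n ∈ Ioc M (M + N), W < mult Q a n)).card : ℝ) ≤
      N * (6 / W) ^ k * (X + N + Y ^ k) := by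
  classical
  set A := (Ico T (T + X)).filter (fun M : ℤ => ∃ n ∈ Ioc M (M + N), W < mult Q a n) with hA
  have hN0 : (0 : ℝ) ≤ N := Nat.cast_nonneg _
  have hY0 : 0 < Y := by linarith
  have h1 : ∀ M ∈ A, (W / 2) ^ k / k.factorial ≤ ∑ n ∈ Ioc M (M + N), ((mult Q a n).choose k : ℝ) := by
    intro M hM
    obtain ⟨n, hn, hWn⟩ := (mem_filter.1 hM).2
    refine le_trans ?_ (single_le_sum (f := fun n => ((mult Q a n).choose k : ℝ)) (fun _ _ => Nat.cast_nonneg _) hn)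
    have hf : 2 * k ≤ mult Q a n := by
      have : (2 * k : ℝ) < mult Q a n := lt_of_le_of_lt hW hWn
      exact_mod_cast this.le
    have h2 := Nat.pow_sub_le_descFactorial (mult Q a n) k
    rw [Nat.descFactorial_eq_factorial_mul_choose] at h2
    have h3 : ((mult Q a n + 1 - k : ℕ) : ℝ) ^ k ≤ k.factorial * ((mult Q a n).choose k : ℝ) := by exact_mod_cast h2
    have h4 : W / 2 ≤ ((mult Q a n + 1 - k : ℕ) : ℝ) := by
      have h5 : ((mult Q a n + 1 - k : ℕ) : ℝ) = (mult Q a n : ℝ) + 1 - k := by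
        rw [Nat.cast_sub (by omega)]; push_cast; ring
      have h6 : (2 * k : ℝ) ≤ mult Q a n := by exact_mod_cast hf
      rw [h5]; linarith
    rw [div_le_iff₀ (by positivity)]
    have h7 : (W / 2) ^ k ≤ ((mult Q a n + 1 - k : ℕ) : ℝ) ^ k := pow_le_pow_left₀ (by positivity) h4 _
    linarith
  have h2 : (A.card : ℝ) * ((W / 2) ^ k / k.factorial) ≤ N * ((Q.card : ℝ) ^ k / k.factorial * ((X + N : ℕ) / Y ^ k + 1)) := by
    calc (A.card : ℝ) * ((W / 2) ^ k / k.factorial) = ∑ M ∈ A, (W / 2) ^ k / k.factorial := by rw [sum_const, nsmul_eq_mul]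
      _ ≤ ∑ M ∈ A, ∑ n ∈ Ioc M (M + N), ((mult Q a n).choose k : ℝ) := sum_le_sum h1
      _ ≤ _ := by
        refine (windows_sum (fun n => ((mult Q a n).choose k : ℝ)) (fun _ => Nat.cast_nonneg _) T X N A (filter_subset _ _)).trans ?_
        exact mul_le_mul_of_nonneg_left (choose_bound Q a Y hY0 (fun p hp => ⟨(hQ p hp).1, (hQ p hp).2.1⟩) k T (X + N)) hN0
  have h3 : (Q.card : ℝ) ^ k ≤ (3 * Y) ^ k := pow_le_pow_left₀ (Nat.cast_nonneg _) (card_Q Q Y hY fun p hp => (hQ p hp).2.2) _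
  have h4 : (A.card : ℝ) * ((W / 2) ^ k / k.factorial) ≤ N * ((3 * Y) ^ k / k.factorial * ((X + N : ℕ) / Y ^ k + 1)) := by
    refine h2.trans ?_
    gcongr
  have h5 : (A.card : ℝ) ≤ N * ((3 * Y) ^ k / k.factorial * ((X + N : ℕ) / Y ^ k + 1)) / ((W / 2) ^ k / k.factorial) := by
    rwa [le_div_iff₀ (by positivity)]
  refine h5.trans (le_of_eq ?_)
  have hf : (k.factorial : ℝ) ≠ 0 := by positivity
  have e : (6 : ℝ) ^ k = 2 ^ k * 3 ^ k := by rw [← mul_pow]; norm_num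
  rw [mul_pow, div_pow, div_pow, e]
  push_cast
  field_simp

lemma mult_mono {Q R : Finset ℕ} (h : Q ⊆ R) (a : ℕ → ℤ) (n : ℤ) : mult Q a n ≤ mult R a n :=
  card_le_card (filter_subset_filter _ h)

/-- windows without integers of large multiplicity: every set of primes covers many integers -/
lemma all_sets (Q R : Finset ℕ) (hQR : Q ⊆ R) (a : ℕ → ℤ) (Y : ℝ) (hY : 0 < Y) (N : ℕ) (hN : 4 * Y ≤ N)
    (hR : ∀ p ∈ R, p.Prime ∧ Y ≤ p ∧ (p : ℝ) < 2 * Y) (M : ℤ) (W : ℝ) (hW : 0 < W)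
    (h : ∀ n ∈ Ioc M (M + N), (mult R a n : ℝ) ≤ W) :
    (Q.card : ℝ) * (N / Y) / (4 * W) ≤ cov Q a M N := by
  have h1 := inc_low Q a Y hY N hN (fun p hp => hR p (hQR hp)) M
  rw [← sum_cset] at h1
  have h2 : ∑ n ∈ cset Q a M N, (mult Q a n : ℝ) ≤ ∑ n ∈ cset Q a M N, W := by
    refine sum_le_sum fun n hn => ?_
    have h3 : (mult Q a n : ℝ) ≤ mult R a n := by exact_mod_cast mult_mono hQR a n
    exact h3.trans (h n (mem_filter.1 hn).1)
  rw [sum_const, nsmul_eq_mul, ← cov_eq] at h2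
  rw [div_le_iff₀ (by positivity)]
  have e : (Q.card : ℝ) * (N / (4 * Y)) = Q.card * (N / Y) / 4 := by field_simp
  rw [e] at h1
  linarith

/-- the covered integers of a window and the expected number -/
lemma asym (Q : Finset ℕ) (a : ℕ → ℤ) (hQ : ∀ p ∈ Q, p.Prime) (M : ℤ) (N : ℕ) :
    |(cov Q a M N : ℝ) - ∑ p ∈ Q, (N : ℝ) / p| ≤ Q.card + ∑ n ∈ Ioc M (M + N), ((mult Q a n).choose 2 : ℝ) := by
  have h1 : |∑ n ∈ Ioc M (M + N), (mult Q a n : ℝ) - ∑ p ∈ Q, (N : ℝ) / p| ≤ Q.card := by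
    have h2 : ∑ n ∈ Ioc M (M + N), (mult Q a n : ℝ) =
      ∑ p ∈ Q, (((Ioc M (M + N)).filter (fun n : ℤ => (p : ℤ) ∣ n - a p)).card : ℝ) := by
      exact_mod_cast mult_sum Q a (Ioc M (M + N))
    rw [h2, ← sum_sub_distrib]
    refine (abs_sum_le_sum_abs _ _).trans ?_
    refine (sum_le_sum (g := fun _ => (1 : ℝ)) fun p hp => ?_).trans (by simp)
    have h3 := class_card M N p (hQ p hp).pos (a p)
    rw [abs_le]
    constructor <;> linarith [h3.1, h3.2]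
  have h4 : ∑ n ∈ Ioc M (M + N), (mult Q a n : ℝ) - cov Q a M N ≤ ∑ n ∈ Ioc M (M + N), ((mult Q a n).choose 2 : ℝ) := by
    rw [← sum_cset, cov_eq]
    have h5 : ((cset Q a M N).card : ℝ) = ∑ n ∈ cset Q a M N, (1 : ℝ) := by simp
    rw [h5, ← sum_sub_distrib]
    refine le_trans ?_ (sum_le_sum_of_subset_of_nonneg (s := cset Q a M N) (filter_subset _ _) fun _ _ _ => Nat.cast_nonneg _)
    refine sum_le_sum fun n _ => ?_
    rw [Nat.cast_choose_two]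
    rcases Nat.lt_or_ge (mult Q a n) 2 with h | h
    · have h6 : mult Q a n = 0 ∨ mult Q a n = 1 := by omega
      rcases h6 with h6 | h6 <;> rw [h6] <;> norm_num
    · have h7 : (2 : ℝ) ≤ mult Q a n := by exact_mod_cast h
      nlinarith
  have h8 : (cov Q a M N : ℝ) ≤ ∑ n ∈ Ioc M (M + N), (mult Q a n : ℝ) := by
    rw [← sum_cset, cov_eq]
    have h5 : ((cset Q a M N).card : ℝ) = ∑ n ∈ cset Q a M N, (1 : ℝ) := by simp
    rw [h5]
    refine sum_le_sum fun n hn => ?_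
    exact_mod_cast mult_pos (mem_filter.1 hn).2
  rw [abs_le] at h1 ⊢
  have h9 : 0 ≤ ∑ n ∈ Ioc M (M + N), ((mult Q a n).choose 2 : ℝ) := sum_nonneg fun _ _ => Nat.cast_nonneg _
  constructor <;> linarith [h1.1, h1.2]

end Pool.Agent.U585.CV
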