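import Pool.Agent.U585.CV.Mul
import Pool.Agent.H386R2.HL.E

/-!
# The primes near `N ^ α`
-/

set_option autoImplicit false

namespace Pool.Agent.U585.CV

open Finset

open Classical in
/-- The set of the primes `p` with `N ^ α ≤ p < 2 N ^ α`. -/
noncomputable def near (α : ℝ) (N : ℕ) : Finset ℕ :=
  (range ⌈2 * (N : ℝ) ^ α⌉₊).filter (fun p => p.Prime ∧ (N : ℝ) ^ α ≤ p)

lemma mem_near {α : ℝ} {N p : ℕ} (hp : p ∈ near α N) : p.Prime ∧ (N : ℝ) ^ α ≤ p ∧ (p : ℝ) < 2 * (N : ℝ) ^ α := by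
  unfold near at hp
  rw [mem_filter, mem_range, Nat.lt_ceil] at hp
  exact ⟨hp.2.1, hp.2.2, hp.1⟩

lemma near_low (α : ℝ) (h1 : 0 < α) (h2 : α < 1) : ∃ N₀ : ℕ, ∀ N : ℕ, N₀ ≤ N →
    (N : ℝ) ^ α / (4 * Real.log N) ≤ ((near α N).card : ℝ) := by
  classical
  obtain ⟨x₀, h0⟩ := Pool.Agent.H386R2.HL.pnt_window (1 / 2) (by norm_num)
  have hev : Filter.Tendsto (fun N : ℕ => (N : ℝ) ^ α) Filter.atTop Filter.atTop :=
    (tendsto_rpow_atTop (by linarith)).comp tendsto_natCast_atTop_atTop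
  obtain ⟨N₁, hN₁⟩ := Filter.eventually_atTop.1 (hev.eventually_ge_atTop ((x₀ : ℝ) + 4))
  refine ⟨N₁ + 3, fun N hN => ?_⟩
  have hNr : (3 : ℝ) ≤ N := by exact_mod_cast (by omega : 3 ≤ N)
  obtain ⟨T, hT⟩ : ∃ T, T = (N : ℝ) ^ α := ⟨_, rfl⟩
  have hT4 : (x₀ : ℝ) + 4 ≤ T := by rw [hT]; exact hN₁ N (by omega)
  have hx0 : (0 : ℝ) ≤ x₀ := Nat.cast_nonneg _
  obtain ⟨x, hx⟩ : ∃ x, x = ⌊T⌋₊ := ⟨_, rfl⟩
  have hxT : (x : ℝ) ≤ T := by rw [hx]; exact Nat.floor_le (by linarith)
  have hTx : T < x + 1 := by rw [hx]; exact Nat.lt_floor_add_one T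
  have hxx : x₀ ≤ x := by rw [hx]; apply Nat.le_floor; linarith
  have hx3 : (3 : ℝ) < x := by linarith
  have hx3n : 3 < x := by exact_mod_cast hx3
  have hw := h0 x hxx x le_rfl
  have hsub : (Ioc x (x + x)).filter Nat.Prime ⊆ near α N := by
    intro p hp
    rw [mem_filter, mem_Ioc] at hp
    unfold near
    rw [mem_filter, mem_range, Nat.lt_ceil, ← hT]
    have hpx : (x : ℝ) + 1 ≤ p := by exact_mod_cast hp.1.1
    have hp2 : p ≠ x + x := by
      intro h
      have h3 : 2 ∣ p := ⟨x, by omega⟩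
      have := (Nat.prime_dvd_prime_iff_eq Nat.prime_two hp.2).1 h3
      omega
    have hp3 : (p : ℝ) + 1 ≤ x + x := by exact_mod_cast (by omega : p + 1 ≤ x + x)
    exact ⟨by linarith, hp.2, by linarith⟩
  have hcard : (Nat.primeCounting (x + x) : ℝ) - Nat.primeCounting x ≤ (near α N).card := by
    have e1 : Nat.primeCounting (x + x) ≤ Nat.primeCounting x + ((Ioc x (x + x)).filter Nat.Prime).card := by
      change Nat.count Nat.Prime (x + x + 1) ≤ Nat.count Nat.Prime (x + 1) + _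
      rw [Nat.count_eq_card_filter_range, Nat.count_eq_card_filter_range]
      refine le_trans (card_le_card (t := (range (x + 1)).filter Nat.Prime ∪ (Ioc x (x + x)).filter Nat.Prime) ?_) (card_union_le _ _)
      intro p hp
      rw [mem_filter, mem_range] at hp
      rw [mem_union, mem_filter, mem_range, mem_filter, mem_Ioc]
      by_cases h : p < x + 1
      · exact Or.inl ⟨h, hp.2⟩
      · exact Or.inr ⟨⟨by omega, by omega⟩, hp.2⟩
    have e2 := card_le_card hsub
    have e3 : Nat.primeCounting (x + x) ≤ Nat.primeCounting x + (near α N).card := e1.trans (by omega)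
    have e4 : (Nat.primeCounting (x + x) : ℝ) ≤ Nat.primeCounting x + (near α N).card := by exact_mod_cast e3
    linarith
  have hlogx : 0 < Real.log x := Real.log_pos (by linarith)
  have hlog : Real.log x ≤ Real.log N := by
    apply Real.log_le_log (by linarith)
    refine hxT.trans ?_
    rw [hT]
    calc (N : ℝ) ^ α ≤ (N : ℝ) ^ (1 : ℝ) := Real.rpow_le_rpow_of_exponent_le (by linarith) h2.le
      _ = N := Real.rpow_one _
  have hN0 : 0 < Real.log N := hlogx.trans_le hlog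
  rw [← hT]
  calc T / (4 * Real.log N) ≤ (1 - 1 / 2) * (x / Real.log N) := by
        rw [div_le_iff₀ (by positivity)]
        have : (1 - 1 / 2) * (x / Real.log N) * (4 * Real.log N) = 2 * x := by field_simp; norm_num
        rw [this]
        linarith
    _ ≤ (1 - 1 / 2) * (x / Real.log x) := by
        apply mul_le_mul_of_nonneg_left _ (by norm_num)
        exact div_le_div_of_nonneg_left (by linarith) hlogx hlog
    _ ≤ _ := hw.trans hcard

lemma near_up (α : ℝ) (h1 : 0 < α) : ∃ N₀ : ℕ, ∀ N : ℕ, N₀ ≤ N →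
    ((near α N).card : ℝ) ≤ 4 / α * ((N : ℝ) ^ α / Real.log N) := by
  classical
  have hev : Filter.Tendsto (fun N : ℕ => 2 * (N : ℝ) ^ α) Filter.atTop Filter.atTop :=
    (((tendsto_rpow_atTop h1).comp tendsto_natCast_atTop_atTop)).const_mul_atTop (by norm_num)
  have h0 := hev.eventually (Chebyshev.eventually_primeCounting_le (ε := 1 / 2) (by norm_num))
  obtain ⟨N₀, hN₀⟩ := Filter.eventually_atTop.1 h0
  refine ⟨N₀ + 3, fun N hN => ?_⟩
  have hNr : (3 : ℝ) ≤ N := by exact_mod_cast (by omega : 3 ≤ N)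
  have h2 := hN₀ N (by omega)
  set Y : ℝ := (N : ℝ) ^ α with hY
  have hY1 : 1 ≤ Y := Real.one_le_rpow (by linarith) h1.le
  have h3 : (near α N).card ≤ Nat.primeCounting ⌊2 * Y⌋₊ := by
    change _ ≤ Nat.count Nat.Prime (⌊2 * Y⌋₊ + 1)
    rw [Nat.count_eq_card_filter_range]
    refine card_le_card fun p hp => ?_
    have h4 := mem_near hp
    rw [mem_filter, mem_range, Nat.lt_add_one_iff]
    exact ⟨Nat.le_floor h4.2.2.le, h4.1⟩
  have h4 : ((near α N).card : ℝ) ≤ Nat.primeCounting ⌊2 * Y⌋₊ := by exact_mod_cast h3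
  refine h4.trans (h2.trans ?_)
  have hl4 : Real.log 4 ≤ 3 / 2 := by
    have : Real.log 4 = 2 * Real.log 2 := by
      rw [show (4 : ℝ) = 2 ^ 2 by norm_num, Real.log_pow]; norm_num
    rw [this]; linarith [Real.log_two_lt_d9]
  have hlN : 0 < Real.log N := Real.log_pos (by linarith)
  have hlY : Real.log Y = α * Real.log N := by rw [hY, Real.log_rpow (by linarith)]
  have hlY2 : Real.log Y ≤ Real.log (2 * Y) := Real.log_le_log (by linarith) (by linarith)
  have hlY0 : 0 < Real.log Y := by rw [hlY]; positivity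
  calc (Real.log 4 + 1 / 2) * (2 * Y) / Real.log (2 * Y) ≤ 4 * Y / Real.log (2 * Y) := by
        apply div_le_div_of_nonneg_right _ (by linarith)
        nlinarith
    _ ≤ 4 * Y / Real.log Y := div_le_div_of_nonneg_left (by linarith) hlY0 hlY2
    _ = 4 / α * (Y / Real.log N) := by rw [hlY]; field_simp

end Pool.Agent.U585.CV
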